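import Pool.Agent.K.MP_e0a138_an.C1
import Pool.Agent.P.MP_e0a138_an.Wh7

set_option autoImplicit false

open MeasureTheory Filter Topology Pool.Agent.P.MP_e0a138_an.AD
open scoped ENNReal

namespace Pool.Agent.Results.MP_e0a138_an.LeafWeyl

/-- The adiabatic Weyl formula for every foliation, with kernels on the leaves of the linearized
foliation. -/
theorem result {N p q k : ℕ} {W : Type} [NormedAddCommGroup W] [InnerProductSpace ℂ W]
    [FiniteDimensional ℂ W] [CompleteSpace W] (A : Atl N p q k) (ε : Eu N → Op W)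
    (hε : IsCAR ε) :
    (∃ μ, A.IsVol μ) ∧ (∃ d, A.IsD ε d) ∧ ∀ μ d, A.IsVol μ → A.IsD ε d →
    (∃ δ, A.IsAdj ε μ (A.dc ε d 0) δ) ∧ (∃ δ, A.IsAdj ε μ (A.dc ε d 1) δ) ∧
    ∀ δF δH, A.IsAdj ε μ (A.dc ε d 0) δF → A.IsAdj ε μ (A.dc ε d 1) δH →
    ∀ (DF : (Eu N → W) → Eu N → W) (D : ℝ → (Eu N → W) → Eu N → W),
    (∀ u m, DF u m = A.dc ε d 0 u m + δF u m) →
    (∀ h u m, D h u m = DF u m + (h : ℂ) • (A.dc ε d 1 u m + δH u m)) →
    (∀ h, EssSA (A.graphM ε μ (D h)) ∧ ∃ R, IsRes (A.graphM ε μ (D h)) R) ∧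
    (∀ i, ∀ᵐ a ∂lio q, (∃ l, A.IsLeaf (i, a) l) ∧ ∀ l, A.IsLeaf (i, a) l →
      EssSA (A.graphL ε DF (i, a) l) ∧ ∃ S, IsRes (A.graphL ε DF (i, a) l) S) ∧
    ∀ f : ℝ → ℂ, Continuous f → HasCompactSupport f → (∀ x, f (-x) = f x) →
    ∀ (R : ℝ → Op (L2 W μ)) (l : Fin k → Eu q × Eu q → Measure (Eu N × Eu N))
      (S : ∀ i a, Op (L2 W (l i a))),
    (∀ h, IsRes (A.graphM ε μ (D h)) (R h)) →
    (∀ i, ∀ᵐ a ∂lio q, A.IsLeaf (i, a) (l i a) ∧ IsRes (A.graphL ε DF (i, a) (l i a)) (S i a)) →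
    ∃ (τ : ℝ → ℂ) (σ : Fin k → Eu q × Eu q → ℂ),
      (∀ᶠ h in 𝓝[>] 0, HasTr (fun _ => 1) (fn f (R h)) (τ h)) ∧
      (∀ i, Integrable (σ i) (lio q) ∧ ∀ᵐ a ∂lio q,
        HasTr ((A.plq (i, a)).indicator fun z => A.χ i z.1) (fn f (S i a)) (σ i a)) ∧
      Tendsto (fun h : ℝ => (h : ℂ) ^ q * τ h) (𝓝[>] 0)
        (𝓝 ((2 * Real.pi : ℂ)⁻¹ ^ q * ∑ i, ∫ a, σ i a ∂lio q)) :=
  main A ε hε

section
open scoped ContDiff

/-- Every closed foliated Riemannian manifold, given by a foliated atlas (parametrisations `c i` on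
open sets `V i`, inverses `s i`, metric coefficients `g i`), is isometric to an `Atl` by a map that
carries the tangent bundle of the foliation to `F`. -/
theorem every_manifold {p q : ℕ} {X ι : Type} [MetricSpace X]
    (compact : ∀ (κ : Type) (O : κ → Set X), (∀ j, IsOpen (O j)) → (∀ x, ∃ j, x ∈ O j) →
      ∃ t : Finset κ, ∀ x, ∃ j ∈ t, x ∈ O j)
    (V : ι → Set (Eu p × Eu q)) (c : ι → Eu p × Eu q → X) (s : ι → X → Eu p × Eu q)
    (g : ι → Eu p × Eu q → Eu p × Eu q → Eu p × Eu q → ℝ)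
    (hV : ∀ i, IsOpen (V i)) (hc : ∀ i, Continuous fun z : V i => c i z)
    (ho : ∀ i B, IsOpen B → B ⊆ V i → IsOpen (c i '' B))
    (hx : ∀ x, ∃ i, ∃ z ∈ V i, c i z = x) (hs : ∀ i, ∀ z ∈ V i, s i (c i z) = z)
    (smooth : ∀ i j, ContDiffOn ℝ ∞ (fun z => s j (c i z)) {z | z ∈ V i ∧ c i z ∈ c j '' V j})
    (foliated : ∀ i j, ∀ z ∈ V i, c i z ∈ c j '' V j → ∀ x,
      (fderiv ℝ (fun z => s j (c i z)) z (x, 0)).2 = 0)
    (hg : ∀ i u w, ContDiffOn ℝ ∞ (fun z => g i z u w) (V i))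
    (hg' : ∀ i, ∀ z ∈ V i, (∀ u, IsLinearMap ℝ (g i z u)) ∧ (∀ u w, g i z u w = g i z w u) ∧
      (∀ u, u ≠ 0 → 0 < g i z u u) ∧ ∀ j, c i z ∈ c j '' V j → ∀ u w, g i z u w =
        g j (s j (c i z)) (fderiv ℝ (fun z => s j (c i z)) z u)
          (fderiv ℝ (fun z => s j (c i z)) z w)) :
    ∃ (N k : ℕ) (A : Atl N p q k) (e : X → Eu N), Continuous e ∧ Function.Injective e ∧
      Set.range e = A.M ∧ ∀ i, ContDiffOn ℝ ∞ (fun z => e (c i z)) (V i) ∧ ∀ z ∈ V i,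
        (∀ u w, inner ℝ (A.J (e (c i z)) (fderiv ℝ (fun z => e (c i z)) z u))
          (A.J (e (c i z)) (fderiv ℝ (fun z => e (c i z)) z w)) = g i z u w) ∧
        (∀ v, v ∈ A.T (e (c i z)) ↔
          ∃ w, A.J (e (c i z)) (fderiv ℝ (fun z => e (c i z)) z w) = v) ∧
        ∀ v, v ∈ A.F (e (c i z)) ↔
          ∃ x, A.J (e (c i z)) (fderiv ℝ (fun z => e (c i z)) z (x, 0)) = v :=
  P.MP_e0a138_an.Wh.embed' compact V c s g hV hc ho hx hs smooth foliated hg hg'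

end

/-- The relations `IsCAR` hold on a space of dimension `2 ^ N`. -/
theorem car_model (N : ℕ) : ∃ ε : Eu N → Op (EuclideanSpace ℂ (Fin (2 ^ N))), IsCAR ε :=
  P.MP_e0a138_an.Wh.car N

/-- `deg ε S j` is the exterior degree along `S`. -/
theorem degree {N : ℕ} {W : Type} [NormedAddCommGroup W] [InnerProductSpace ℂ W]
    [FiniteDimensional ℂ W] [CompleteSpace W] (ε : Eu N → Op W) (hε : IsCAR ε)
    (S : Submodule ℝ (Eu N)) (w : W) :
    (deg ε S 0 w = w ↔ ∀ v ∈ S, star (ε v) w = 0) ∧ ∀ j, deg ε S j w = w →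
      (∀ v ∈ S, deg ε S (j + 1) (ε v w) = ε v w) ∧
        ∀ v, (∀ x ∈ S, inner ℝ x v = 0) → deg ε S j (ε v w) = ε v w :=
  P.MP_e0a138_an.Wh.deg_pin hε S w

/-- The resolvent is unique, and `fn f R` acts on an eigenvector with eigenvalue `t` by `f t`. -/
theorem calculus {E : Type} [NormedAddCommGroup E] [InnerProductSpace ℂ E] [CompleteSpace E]
    (G : Set (E × E)) (hG : EssSA G) (R : Op E) (hR : IsRes G R) :
    (∀ R', IsRes G R' → R = R') ∧ ∀ (u : E) (t : ℝ), (u, (t : ℂ) • u) ∈ G →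
      ∀ f : ℝ → ℂ, Continuous f → HasCompactSupport f → (∀ x, f (-x) = f x) →
        fn f R u = f t • u :=
  ⟨fun _ h => P.MP_e0a138_an.Wh.res_uniq hG hR h,
    fun _ _ hu _ hf hc he => P.MP_e0a138_an.Wh.fn_eig hG hR hu hf hc he⟩

end Pool.Agent.Results.MP_e0a138_an.LeafWeyl
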