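import Pool.Agent.K.MP_e0a138_an.C2
import Pool.Agent.P.MP_e0a138_an.Stmt

set_option autoImplicit false

open MeasureTheory Filter Topology Pool.Agent.P.MP_e0a138_an.S
open scoped ENNReal ContDiff

namespace Pool.Agent.Results.MP_e0a138_an.WeylFails

/-- The adiabatic Weyl formula fails for a foliation of the torus by the orbits of
`X = ∂x + a(y) ∂y`, with the metric making `X, ∂y` orthonormal. -/
theorem result : ∃ (a : ℝ → ℝ) (Φ : ℝ → ℝ → ℝ) (f : ℝ → ℝ),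
    ContDiff ℝ ∞ a ∧ Function.Periodic a 1 ∧
    (∀ y, Φ y 0 = y ∧ ∀ t, HasDerivAt (Φ y) (a (Φ y t)) t) ∧
    (∀ (y : ℝ) (n : ℤ), n ≠ 0 → ¬∀ᶠ z in 𝓝 y, ∃ m : ℤ, Φ z n = z + m) ∧
    (∀ h u v, IsForm u → IsForm v →
      ip (Dh a h u) v = ip (dh a h u) v + ip u (dh a h v)) ∧
    (∀ y τ, (∃! R, IsRes (fun t => deriv a (Φ y t)) τ R) ∧
      ∀ R, IsRes (fun t => deriv a (Φ y t)) τ R → IsSA R) ∧
    ContDiff ℝ ∞ f ∧ HasCompactSupport f ∧ (∀ x, f (-x) = f x) ∧ (∀ x, 0 ≤ f x) ∧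
    (∀ᶠ h in 𝓝[>] (0 : ℝ), ENNReal.ofReal h * trM a h f ≤ ENNReal.ofReal 7.8) ∧
    ∀ R : ∀ y : ℝ, ℝ → L2 (fun t => deriv a (Φ y t)) →L[ℂ] L2 (fun t => deriv a (Φ y t)),
      (∀ y τ, IsRes (fun t => deriv a (Φ y t)) τ (R y τ)) →
        8 ≤ ENNReal.ofReal (2 * Real.pi)⁻¹ * ∫⁻ y in Set.Ioc (0 : ℝ) 1, ∫⁻ τ,
          diag (fun t => deriv a (Φ y t)) (fc f (R y τ)) :=
  Pool.Agent.P.MP_e0a138_an.main

end Pool.Agent.Results.MP_e0a138_an.WeylFails
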